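import Mathlib
import Pool.Agent.H79.NilpLieDefs
import Pool.Agent.H79.NilpLie

/-!
# Nilpotent Lie algebras: every variety `Θ_{P,n}` is logically regular
-/

namespace Pool.Agent.Results.MP_8011ed_lc.Regular

open Pool.Agent.H79.NilpLie

universe u v

/-- **Answer to Q2: all pairs.**  For every field `P` and every `n ≥ 1` the variety `Θ_{P,n}` of
Lie algebras over `P` that are nilpotent of class at most `n` is logically regular. -/
theorem result (P : Type u) [Field P] (n : ℕ) (hn : 1 ≤ n) : LogicallyRegular.{u, v} P n :=
  logicallyRegular hn

end Pool.Agent.Results.MP_8011ed_lc.Regular
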